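import Pool.Agent.Lib.MP_55191a_nt.Sv
import Pool.Agent.Lib.MP_926cc3_nt.RM.VBD
import Pool.Agent.Lib.MP_391708_nt.QPA.Wmer

/-!
# Three linear forms free of a thin set of primes
-/

set_option autoImplicit false

namespace Pool.Agent.Lib.MP55191a

open Finset
open scoped Classical
open Pool.Agent.Lib.MP391708.QPA (PB Wp)

theorem mem_PB {q p : ℕ} : p ∈ PB (q : ℝ) ↔ p < q ∧ p.Prime := by
  unfold PB
  rw [mem_filter, mem_range, Nat.ceil_natCast]

theorem trans_card {p a b : ℕ} (hp : p.Prime) (h : ¬ p ∣ a) {S : Finset ℕ} (hS : S ⊆ range p) :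
    ((range p).filter (fun v => (a * v + b) % p ∈ S)).card = S.card := by
  have hinj : Set.InjOn (fun v => (a * v + b) % p) (range p : Set ℕ) := by
    intro u hu v hv huv
    have h1 : a * u + b ≡ a * v + b [MOD p] := huv
    have h2 : a * u ≡ a * v [MOD p] := Nat.ModEq.add_right_cancel' b h1
    have h3 := Nat.ModEq.cancel_left_of_coprime
      ((Nat.Prime.coprime_iff_not_dvd hp).2 h) h2
    exact Nat.ModEq.eq_of_lt_of_lt h3 (mem_range.1 hu) (mem_range.1 hv)
  have hmaps : Set.MapsTo (fun v => (a * v + b) % p) (range p : Set ℕ) (range p : Set ℕ) :=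
    fun v _ => by
      rw [mem_coe, mem_range]
      exact Nat.mod_lt _ hp.pos
  have hsurj := surjOn_of_injOn_of_card_le (fun v => (a * v + b) % p) hmaps hinj le_rfl
  refine card_nbij (fun v => (a * v + b) % p) (fun v hv => (mem_filter.1 hv).2)
    (hinj.mono fun v hv => ?_) fun w hw => ?_
  · exact (mem_filter.1 hv).1
  · obtain ⟨v, hv, hvw⟩ := hsurj (hS hw)
    refine ⟨v, ?_, hvw⟩
    rw [mem_coe, mem_filter]
    refine ⟨hv, ?_⟩
    have h1 : (a * v + b) % p = w := hvw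
    rw [h1]
    exact hw

/-- the residues `u` modulo `q` with `q ∣ a u + b` -/
noncomputable def Rt (a b q : ℕ) : Finset ℕ := (range q).filter (fun u => q ∣ a * u + b)

theorem mem_Rt {a b q u : ℕ} (hq : 0 < q) : u % q ∈ Rt a b q ↔ q ∣ a * u + b := by
  unfold Rt
  rw [mem_filter, mem_range]
  have h : a * (u % q) + b ≡ a * u + b [MOD q] := ((Nat.mod_modEq u q).mul_left a).add_right b
  constructor
  · rintro ⟨-, h1⟩
    exact (h.dvd_iff dvd_rfl).1 h1
  · exact fun h1 => ⟨Nat.mod_lt _ hq, (h.dvd_iff dvd_rfl).2 h1⟩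

theorem card_Rt {a b q : ℕ} (hq : q.Prime) (h : ¬ q ∣ a) : (Rt a b q).card = 1 := by
  have h1 := trans_card (b := b) hq h (S := {0}) (by
    intro x hx
    rw [mem_singleton] at hx
    rw [hx, mem_range]
    exact hq.pos)
  rw [card_singleton] at h1
  rw [← h1]
  unfold Rt
  congr 1
  ext u
  rw [mem_filter, mem_filter, mem_singleton, Nat.dvd_iff_mod_eq_zero]

/-- the sifted set -/
noncomputable def Z (N q : ℕ) (Om : ℕ → Finset ℕ) : Finset ℕ :=
  (range N).filter (fun u => ∀ p ∈ PB (q : ℝ), u % p ∉ Om p)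

/-- the sieve product -/
noncomputable def Vp (q : ℕ) (Om : ℕ → Finset ℕ) : ℝ :=
  ∏ p ∈ PB (q : ℝ), (1 - ((Om p).card : ℝ) / p)

/-- valid choices of classes -/
def OK (Om : ℕ → Finset ℕ) : Prop :=
  ∀ p : ℕ, p.Prime → Om p ⊆ range p ∧ (Om p).card ≤ 3 ∧ 2 * (Om p).card ≤ p

theorem Vp_pos {Om : ℕ → Finset ℕ} (h : OK Om) (q : ℕ) : 0 < Vp q Om := by
  refine prod_pos fun p hp => ?_
  have hpp := (mem_PB.1 hp).2
  obtain ⟨-, -, h3⟩ := h p hpp
  have h4 : (0 : ℝ) < p := by exact_mod_cast hpp.pos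
  have h5 : (2 : ℝ) * (Om p).card ≤ p := by exact_mod_cast h3
  rw [sub_pos, div_lt_one h4]
  linarith

theorem D_bound {s x : ℕ} (hx : 1 ≤ x)
    (hS : ∀ Om : ℕ → Finset ℕ, OK Om → ∀ N, x ^ s ≤ N → ((Z N x Om).card : ℝ) ≤ 2 * (N * Vp x Om))
    {Om : ℕ → Finset ℕ} (hOm : OK Om) {l a b U : ℕ} (hl : l.Prime) (hxl : x ≤ l) (ha : ¬ l ∣ a)
    (hU : x ^ s ≤ U / l) :
    (((Z U x Om).filter (fun u => l ∣ a * u + b)).card : ℝ) ≤ 4 * (U * Vp x Om) * (1 / (l : ℝ)) := by
  obtain ⟨c, hc⟩ := card_eq_one.1 (card_Rt (b := b) hl ha)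
  set Om2 : ℕ → Finset ℕ := fun p =>
    if p < x then (range p).filter (fun v => (l * v + c) % p ∈ Om p) else ∅ with hOm2
  have hcard : ∀ p, p.Prime → p < x → (Om2 p).card = (Om p).card := by
    intro p hp hpx
    rw [hOm2]
    simp only
    rw [if_pos hpx]
    refine trans_card hp (fun hd => ?_) (hOm p hp).1
    have := (Nat.prime_dvd_prime_iff_eq hp hl).1 hd
    omega
  have hOK2 : OK Om2 := by
    intro p hp
    by_cases hpx : p < x
    · rw [hcard p hp hpx]
      refine ⟨?_, (hOm p hp).2⟩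
      rw [hOm2]
      simp only
      rw [if_pos hpx]
      exact filter_subset _ _
    · rw [hOm2]
      simp only
      rw [if_neg hpx]
      simp
  have hV : Vp x Om2 = Vp x Om := by
    unfold Vp
    refine prod_congr rfl fun p hp => ?_
    obtain ⟨h1, h2⟩ := mem_PB.1 hp
    rw [hcard p h2 h1]
  have hu : ∀ u, l ∣ a * u + b → u % l = c := by
    intro u h
    have h1 := (mem_Rt (a := a) (b := b) (u := u) hl.pos).2 h
    rw [hc, mem_singleton] at h1
    exact h1
  have h1 : ((Z U x Om).filter (fun u => l ∣ a * u + b)).card ≤ (Z (U / l + 1) x Om2).card := by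
    refine card_le_card_of_injOn (fun u => u / l) ?_ ?_
    · intro u hu'
      rw [mem_coe, mem_filter] at hu'
      obtain ⟨h2, h3⟩ := hu'
      unfold Z at h2
      rw [mem_filter, mem_range] at h2
      rw [mem_coe]
      unfold Z
      rw [mem_filter, mem_range]
      refine ⟨Nat.lt_succ_of_le (Nat.div_le_div_right h2.1.le), fun p hp hmem => ?_⟩
      obtain ⟨h4, h5⟩ := mem_PB.1 hp
      rw [hOm2] at hmem
      simp only at hmem
      rw [if_pos h4, mem_filter] at hmem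
      apply h2.2 p hp
      have h6 : l * (u / l % p) + c ≡ l * (u / l) + c [MOD p] :=
        ((Nat.mod_modEq (u / l) p).mul_left l).add_right c
      have h7 : l * (u / l) + c = u := by
        rw [← hu u h3]
        exact Nat.div_add_mod u l
      rw [h7] at h6
      have h8 : (l * (u / l % p) + c) % p = u % p := h6
      rw [← h8]
      exact hmem.2
    · intro u hu1 v hv1 huv
      rw [mem_coe, mem_filter] at hu1 hv1
      have h2 : u / l = v / l := huv
      have h3 := Nat.div_add_mod u l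
      have h4 := Nat.div_add_mod v l
      rw [hu u hu1.2] at h3
      rw [hu v hv1.2] at h4
      rw [← h3, ← h4, h2]
  have h2 := hS Om2 hOK2 (U / l + 1) (by omega)
  rw [hV] at h2
  have h3 : 1 ≤ U / l := le_trans (Nat.one_le_pow _ _ hx) hU
  have h4 : ((U / l : ℕ) : ℝ) ≤ U * (1 / (l : ℝ)) := by
    rw [mul_one_div]
    exact Nat.cast_div_le
  have h5 : (1 : ℝ) ≤ ((U / l : ℕ) : ℝ) := by exact_mod_cast h3
  have hVp := Vp_pos hOm x
  calc (((Z U x Om).filter (fun u => l ∣ a * u + b)).card : ℝ)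
      ≤ ((Z (U / l + 1) x Om2).card : ℝ) := by exact_mod_cast h1
    _ ≤ 2 * (((U / l + 1 : ℕ) : ℝ) * Vp x Om) := h2
    _ ≤ 2 * ((2 * (U * (1 / (l : ℝ)))) * Vp x Om) := by
        refine mul_le_mul_of_nonneg_left (mul_le_mul_of_nonneg_right ?_ hVp.le) (by norm_num)
        push_cast
        linarith
    _ = 4 * (U * Vp x Om) * (1 / (l : ℝ)) := by ring

/-- the product over the primes in `[y, q)` -/
noncomputable def rho (y q : ℕ) : ℝ := ∏ p ∈ (PB (q : ℝ)).filter (fun p => y ≤ p), (1 - 1 / (p : ℝ))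

theorem G_bound {s x y q : ℕ} (hxq : x ≤ q) (hxy : x ≤ y)
    (hS : ∀ Om : ℕ → Finset ℕ, OK Om → ∀ N, q ^ s ≤ N → ((Z N q Om).card : ℝ) ≤ 2 * (N * Vp q Om))
    {Om : ℕ → Finset ℕ} (hOm : OK Om) {a b U : ℕ} (ha : ∀ p : ℕ, p.Prime → y ≤ p → ¬ p ∣ a)
    (hU : q ^ s ≤ U) :
    (((Z U x Om).filter (fun u => ∀ p : ℕ, p.Prime → y ≤ p → p < q → ¬ p ∣ a * u + b)).card : ℝ) ≤
      2 * (U * Vp x Om) * rho y q := by
  set Om3 : ℕ → Finset ℕ := fun p => if p < x then Om p else if y ≤ p then Rt a b p else ∅ with hOm3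
  have e1 : ∀ p, p < x → Om3 p = Om p := fun p hp => by
    rw [hOm3]
    simp only
    rw [if_pos hp]
  have e2 : ∀ p, ¬ p < x → y ≤ p → Om3 p = Rt a b p := fun p hp hy => by
    rw [hOm3]
    simp only
    rw [if_neg hp, if_pos hy]
  have e3 : ∀ p, ¬ p < x → ¬ y ≤ p → Om3 p = ∅ := fun p hp hy => by
    rw [hOm3]
    simp only
    rw [if_neg hp, if_neg hy]
  have hOK3 : OK Om3 := by
    intro p hp
    by_cases h1 : p < x
    · rw [e1 p h1]
      exact hOm p hp
    · by_cases h2 : y ≤ p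
      · rw [e2 p h1 h2, card_Rt hp (ha p hp h2)]
        refine ⟨filter_subset _ _, by norm_num, ?_⟩
        have := hp.two_le
        omega
      · rw [e3 p h1 h2]
        simp
  have hV : Vp q Om3 = Vp x Om * rho y q := by
    have h1 : PB (x : ℝ) = (PB (q : ℝ)).filter (fun p => p < x) := by
      ext p
      rw [mem_filter, mem_PB, mem_PB]
      constructor
      · rintro ⟨h1, h2⟩
        exact ⟨⟨by omega, h2⟩, h1⟩
      · rintro ⟨⟨_, h2⟩, h1⟩
        exact ⟨h1, h2⟩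
    unfold Vp rho
    rw [h1, prod_filter, prod_filter, ← prod_mul_distrib]
    refine prod_congr rfl fun p hp => ?_
    obtain ⟨h2, h3⟩ := mem_PB.1 hp
    by_cases h4 : p < x
    · rw [if_pos h4, if_neg (by omega), mul_one, e1 p h4]
    · rw [if_neg h4, one_mul]
      by_cases h5 : y ≤ p
      · rw [if_pos h5, e2 p h4 h5, card_Rt h3 (ha p h3 h5), Nat.cast_one]
      · rw [if_neg h5, e3 p h4 h5]
        simp
  have hsub : (Z U x Om).filter (fun u => ∀ p : ℕ, p.Prime → y ≤ p → p < q → ¬ p ∣ a * u + b) ⊆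
      Z U q Om3 := by
    intro u hu
    rw [mem_filter] at hu
    obtain ⟨h1, h2⟩ := hu
    unfold Z at h1 ⊢
    rw [mem_filter, mem_range] at h1 ⊢
    refine ⟨h1.1, fun p hp => ?_⟩
    obtain ⟨h3, h4⟩ := mem_PB.1 hp
    by_cases h5 : p < x
    · rw [e1 p h5]
      exact h1.2 p (mem_PB.2 ⟨h5, h4⟩)
    · by_cases h6 : y ≤ p
      · rw [e2 p h5 h6, mem_Rt h4.pos]
        exact h2 p h4 h6 h3
      · rw [e3 p h5 h6]
        simp
  have h1 := hS Om3 hOK3 U hU
  have h2 : (((Z U x Om).filter (fun u => ∀ p : ℕ, p.Prime → y ≤ p → p < q →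
      ¬ p ∣ a * u + b)).card : ℝ) ≤ ((Z U q Om3).card : ℝ) := by exact_mod_cast card_le_card hsub
  rw [hV] at h1
  calc _ ≤ _ := h2
    _ ≤ _ := h1
    _ = _ := by ring

theorem rho_small (s : ℕ) : ∃ B x1 : ℕ, s + 1 ≤ B ∧ ∀ x : ℕ, x1 ≤ x →
    rho (x ^ (s + 1)) (x ^ B) ≤ 1 / 48 := by
  obtain ⟨C, hC, hW⟩ := Pool.Agent.Lib.MP391708.QPA.specWMER
  obtain ⟨-, c, hc, hV⟩ := Pool.Agent.Lib.MP_926cc3_nt.RM.specVBD
  obtain ⟨B, hB⟩ := exists_nat_ge (48 * C * (s + 2) / c)
  refine ⟨B + s + 1, 3, by omega, fun x hx => ?_⟩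
  set B' := B + s + 1 with hB'
  have hx3 : (3 : ℝ) ≤ x := by exact_mod_cast hx
  have hlog : 1 ≤ Real.log x := by
    rw [Real.le_log_iff_exp_le (by linarith)]
    exact (Real.exp_one_lt_d9.le.trans (by norm_num)).trans hx3
  have hB1 : (1 : ℝ) ≤ B' := by
    have : 1 ≤ B' := by omega
    exact_mod_cast this
  have hBB : (B : ℝ) ≤ B' := by
    have : B ≤ B' := by omega
    exact_mod_cast this
  have h1 := hW (((x ^ B' : ℕ) : ℝ)) (by
    push_cast
    calc (2 : ℝ) ≤ x := by linarith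
      _ = (x : ℝ) ^ 1 := (pow_one _).symm
      _ ≤ (x : ℝ) ^ B' := pow_le_pow_right₀ (by linarith) (by omega))
  have hlogB : Real.log ((x ^ B' : ℕ) : ℝ) = B' * Real.log x := by
    push_cast
    rw [Real.log_pow]
  rw [hlogB] at h1
  have h2 := hV (x ^ (s + 1))
  have hlogS : Real.log ((x ^ (s + 1) : ℕ) : ℝ) = (s + 1) * Real.log x := by
    push_cast
    rw [Real.log_pow]
    push_cast
    ring
  rw [hlogS] at h2
  have hle : x ^ (s + 1) ≤ x ^ B' := Nat.pow_le_pow_right (by omega) (by omega)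
  have h3 : Wp ((x ^ B' : ℕ) : ℝ) = Pool.Agent.Lib.MP_926cc3_nt.RM.V (x ^ (s + 1)) *
      rho (x ^ (s + 1)) (x ^ B') := by
    have h4 : (range (x ^ (s + 1))).filter Nat.Prime =
        (PB ((x ^ B' : ℕ) : ℝ)).filter (fun p => p < x ^ (s + 1)) := by
      ext p
      rw [mem_filter, mem_filter, mem_range, mem_PB]
      constructor
      · rintro ⟨h1, h2⟩
        exact ⟨⟨by omega, h2⟩, h1⟩
      · rintro ⟨⟨_, h2⟩, h1⟩
        exact ⟨h1, h2⟩
    unfold Wp Pool.Agent.Lib.MP_926cc3_nt.RM.V rho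
    rw [h4, prod_filter, prod_filter, ← prod_mul_distrib]
    refine prod_congr rfl fun p _ => ?_
    by_cases h5 : p < x ^ (s + 1)
    · rw [if_pos h5, if_neg (by omega), mul_one]
    · rw [if_neg h5, if_pos (by omega), one_mul]
  rw [h3] at h1
  set v := Pool.Agent.Lib.MP_926cc3_nt.RM.V (x ^ (s + 1)) with hv
  set r := rho (x ^ (s + 1)) (x ^ B') with hr
  have hv0 : 0 < v := Pool.Agent.Lib.MP_926cc3_nt.RM.V_pos _
  set L := Real.log x with hL
  have hL0 : 0 < L := by linarith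
  have h4 : 1 + (s + 1) * L ≤ (s + 2) * L := by nlinarith
  have h5 : c ≤ v * ((s + 2) * L) := h2.trans (mul_le_mul_of_nonneg_left h4 hv0.le)
  have h6 : v * r * (B' * L) ≤ C := by
    rwa [le_div_iff₀ (by positivity)] at h1
  have h7 : 48 * C * (s + 2) ≤ c * B' := by
    rw [div_le_iff₀ hc] at hB
    nlinarith
  by_contra hcon
  push Not at hcon
  have h8 : c * B' * (1 / 48) < v * ((s + 2) * L) * B' * r := by
    have h9 : c * B' * (1 / 48) ≤ v * ((s + 2) * L) * B' * (1 / 48) := by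
      refine mul_le_mul_of_nonneg_right (mul_le_mul_of_nonneg_right h5 (by linarith)) (by norm_num)
    refine h9.trans_lt (mul_lt_mul_of_pos_left hcon ?_)
    positivity
  have h9 : v * ((s + 2) * L) * B' * r = (s + 2) * (v * r * (B' * L)) := by ring
  have h10 : ((s : ℝ) + 2) * (v * r * (B' * L)) ≤ (s + 2) * C :=
    mul_le_mul_of_nonneg_left h6 (by positivity)
  nlinarith

end Pool.Agent.Lib.MP55191a
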