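import Pool.Agent.Lib.MP_55191a_nt.Win

/-!
# Three consecutive `k`-th power residues for pretentious characters of odd order
-/

set_option autoImplicit false

namespace Pool.Agent.Lib.MP55191a

open Finset
open scoped Classical

/-- a character of order `k` modulo a prime detects the `k`-th powers -/
theorem pow_of_char {p k : ℕ} [hp : Fact p.Prime] (χ : DirichletCharacter ℂ p)
    (hχ : orderOf χ = k) {a : ZMod p} (ha : χ a = 1) : ∃ x : ZMod p, x ^ k = a := by
  have hu : IsUnit a := by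
    by_contra h
    rw [χ.map_nonunit h] at ha
    exact zero_ne_one ha
  obtain ⟨u, rfl⟩ := hu
  obtain ⟨g, hg⟩ := IsCyclic.exists_generator (α := (ZMod p)ˣ)
  -- make the exponent a natural number
  obtain ⟨N, hN⟩ : ∃ N : ℕ, g ^ N = u := by
    have h1 := hg u
    rw [mem_zpowers_iff_mem_range_orderOf] at h1
    obtain ⟨N, -, hN⟩ := mem_image.1 h1
    exact ⟨N, hN⟩
  have h1 : χ ^ N = 1 := by
    ext v
    obtain ⟨s, hs⟩ : ∃ s : ℕ, g ^ s = v := by
      have h1 := hg v
      rw [mem_zpowers_iff_mem_range_orderOf] at h1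
      obtain ⟨s, -, hs⟩ := mem_image.1 h1
      exact ⟨s, hs⟩
    rw [MulChar.pow_apply_coe, MulChar.one_apply_coe, ← hs, Units.val_pow_eq_pow_val, map_pow,
      ← pow_mul, mul_comm, pow_mul]
    have h2 : χ (g : ZMod p) ^ N = 1 := by
      rw [← map_pow, ← Units.val_pow_eq_pow_val, hN]
      exact ha
    rw [h2, one_pow]
  have h2 : k ∣ N := by
    rw [← hχ]
    exact orderOf_dvd_of_pow_eq_one h1
  obtain ⟨t, rfl⟩ := h2
  refine ⟨((g ^ t : (ZMod p)ˣ) : ZMod p), ?_⟩
  rw [← Units.val_pow_eq_pow_val, ← pow_mul, mul_comm, hN]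

theorem char_eq {p m : ℕ} (χ : DirichletCharacter ℂ p) (ψ : DirichletCharacter ℂ m) :
    ∀ n : ℕ, 0 < n → (∀ q : ℕ, q.Prime → q ∣ n → χ (q : ZMod p) = ψ (q : ZMod m)) →
      χ (n : ZMod p) = ψ (n : ZMod m) := by
  intro n
  induction n using Nat.strong_induction_on with
  | _ n ih =>
    intro hn h
    by_cases h1 : n = 1
    · subst h1
      simp
    · have hq := Nat.minFac_prime h1
      obtain ⟨c, hc⟩ := Nat.minFac_dvd n
      have hc0 : 0 < c := by
        rcases Nat.eq_zero_or_pos c with h2 | h2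
        · rw [h2, Nat.mul_zero] at hc
          omega
        · exact h2
      have hcn : c < n := by
        have h2 := hq.two_le
        calc c < 2 * c := by omega
          _ ≤ n.minFac * c := Nat.mul_le_mul_right _ h2
          _ = n := hc.symm
      have h2 := ih c hcn hc0 fun q hq hqc => h q hq (by
        rw [hc]
        exact hqc.mul_left _)
      have h3 := h _ hq (Nat.minFac_dvd n)
      rw [hc, Nat.cast_mul, Nat.cast_mul, map_mul, map_mul, h2, h3]

/-- Let `k` be odd and `m ≥ 1`. If a character `χ` of order `k` modulo a prime `p` agrees with a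
character `ψ` modulo `m`, `ψ ^ k = 1`, up to a set of primes that is sparse at some scale below `L`,
then there are three consecutive `k`-th power residues modulo `p` below `L`. -/
theorem main : ∃ δ : ℝ, 0 < δ ∧ ∀ k : ℕ, Odd k → ∀ m : ℕ, 0 < m → ∀ C : ℝ, ∃ L₀ : ℕ,
    ∀ L : ℕ, L₀ ≤ L → ∀ p : ℕ, p.Prime → ∀ χ : DirichletCharacter ℂ p, orderOf χ = k →
    ∀ ψ : DirichletCharacter ℂ m, ψ ^ k = 1 →
      (∑ q ∈ (range (L + 1)).filter
          (fun q => q.Prime ∧ ¬ q ∣ m ∧ χ (q : ZMod p) ≠ ψ (q : ZMod m)), 1 / (q : ℝ)) ≤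
        δ * Real.log (Real.log L) + C →
      ∃ r : ℕ, 0 < r ∧ r + 2 ≤ L ∧ ∀ j ≤ 2, ∃ x : ℕ, x ^ k ≡ r + j [MOD p] := by
  obtain ⟨A, hA, hforms⟩ := forms
  have hAR : (2 : ℝ) ≤ A := by exact_mod_cast hA
  have hlA : 0 < Real.log A := Real.log_pos (by linarith)
  refine ⟨1 / (200 * Real.log A), by positivity, fun k hk m hm C => ?_⟩
  have hk0 : 0 < k := hk.pos
  set W := (m + 7).factorial with hW
  set M := W ^ k with hM
  have hW2 : 2 ≤ W := by
    calc 2 ≤ (2 : ℕ).factorial := le_rfl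
      _ ≤ W := Nat.factorial_le (by omega)
  have hM2 : 2 ≤ M := hW2.trans (Nat.le_self_pow hk0.ne' W)
  obtain ⟨x0, hx0⟩ := hforms ![W, M * W, M * W] ![1, M - 1, M + 1]
    (by
      intro i
      fin_cases i
      · change 0 < W
        omega
      · change 0 < M * W
        positivity
      · change 0 < M * W
        positivity)
    (by
      intro i
      fin_cases i
      · exact Nat.one_pos
      · change 0 < M - 1
        omega
      · change 0 < M + 1
        omega)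
  obtain ⟨L₀, hL₀⟩ := window A hA x0 C
  refine ⟨L₀, fun L hL p hp χ hχ ψ hψ hdist => ?_⟩
  have _ : Fact p.Prime := ⟨hp⟩
  have _ : NeZero m := ⟨hm.ne'⟩
  obtain ⟨Bad, hBad⟩ : ∃ Bad : ℕ → Prop, ∀ q, Bad q ↔
      (q.Prime ∧ ¬ q ∣ W ∧ χ (q : ZMod p) ≠ ψ (q : ZMod m)) := ⟨_, fun _ => Iff.rfl⟩
  have hmW : m ∣ W := Nat.dvd_factorial hm (by omega)
  obtain ⟨x, hx, hxL, hxs⟩ := hL₀ L hL Bad (by
    refine le_trans (sum_le_sum_of_subset_of_nonneg (fun q hq => ?_) fun q _ _ => by positivity)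
      hdist
    rw [mem_filter, hBad] at hq
    rw [mem_filter]
    exact ⟨hq.1, hq.2.1, fun h => hq.2.2.1 (h.trans hmW), hq.2.2.2⟩)
  obtain ⟨u, hu⟩ := hx0 x hx Bad (by
    intro q hq
    obtain ⟨h1, h2, -⟩ := (hBad q).1 hq
    have h3 : ¬ q ∣ M * W := fun h => by
      rcases (Nat.Prime.dvd_mul h1).1 h with h4 | h4
      · exact h2 (h1.dvd_of_dvd_pow h4)
      · exact h2 h4
    refine ⟨h1, ?_, fun i => ?_⟩
    · by_contra hlt
      push Not at hlt
      exact h2 (Nat.dvd_factorial h1.pos (by omega))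
    · fin_cases i
      · exact h2
      · exact h3
      · exact h3) hxs
  -- the three numbers
  set t := W * u + 1 with ht
  have hu0 := hu 0
  have hu1 := hu 1
  have hu2 := hu 2
  change W * u + 1 < x ^ A ∧ ∀ q, Bad q → ¬ q ∣ W * u + 1 at hu0
  change M * W * u + (M - 1) < x ^ A ∧ ∀ q, Bad q → ¬ q ∣ M * W * u + (M - 1) at hu1
  change M * W * u + (M + 1) < x ^ A ∧ ∀ q, Bad q → ¬ q ∣ M * W * u + (M + 1) at hu2
  have hMt : M * t = M * W * u + M := by rw [ht]; ring
  have e1 : M * W * u + (M - 1) = M * t - 1 := by rw [hMt]; omega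
  have e2 : M * W * u + (M + 1) = M * t + 1 := by rw [hMt]; omega
  rw [e1] at hu1
  rw [e2] at hu2
  have hMt2 : 2 ≤ M * t := by
    rw [hMt]
    omega
  have hWm : ((W : ℕ) : ZMod m) = 0 := (ZMod.natCast_eq_zero_iff _ _).2 hmW
  have hMm : ((M : ℕ) : ZMod m) = 0 := by
    rw [hM, Nat.cast_pow, hWm, zero_pow hk0.ne']
  -- the characters agree on the three numbers
  have key : ∀ F : ℕ, 0 < F → (∀ q : ℕ, q.Prime → q ∣ W → ¬ q ∣ F) → (∀ q, Bad q → ¬ q ∣ F) →
      χ (F : ZMod p) = ψ (F : ZMod m) := by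
    intro F hF h1 h2
    refine char_eq χ ψ F hF fun q hq hqF => ?_
    by_contra hne
    exact h2 q ((hBad q).2 ⟨hq, fun h => h1 q hq h hqF, hne⟩) hqF
  have hWM : ∀ q : ℕ, q ∣ W → q ∣ M * t := fun q h =>
    (h.trans (dvd_pow_self W hk0.ne')).mul_right t
  have k0 : χ ((t : ℕ) : ZMod p) = 1 := by
    rw [key t (by omega) ?_ hu0.2]
    · rw [ht]
      push_cast
      rw [hWm, zero_mul, zero_add, map_one]
    · intro q hq hqW hqt
      have h1 : q ∣ W * u := hqW.mul_right u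
      exact hq.one_lt.ne' (Nat.dvd_one.1 ((Nat.dvd_add_right h1).1 hqt))
  have k2 : χ ((M * t + 1 : ℕ) : ZMod p) = 1 := by
    rw [key (M * t + 1) (by omega) ?_ hu2.2]
    · push_cast
      rw [hMm, zero_mul, zero_add, map_one]
    · intro q hq hqW hqt
      exact hq.one_lt.ne' (Nat.dvd_one.1 ((Nat.dvd_add_right (hWM q hqW)).1 hqt))
  have hneg : ψ (-1) = 1 := by
    have h1 : ψ (-1) ^ 2 = 1 := by
      rw [← map_pow]
      simp
    have h2 : ψ (-1) ^ k = 1 := by
      have h3 : (ψ ^ k) ((-1 : (ZMod m)ˣ) : ZMod m) = 1 := by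
        rw [hψ, MulChar.one_apply_coe]
      rw [MulChar.pow_apply_coe] at h3
      simpa using h3
    obtain ⟨j, rfl⟩ := hk
    rw [pow_add, pow_mul, h1, one_pow, one_mul, pow_one] at h2
    exact h2
  have k1 : χ ((M * t - 1 : ℕ) : ZMod p) = 1 := by
    rw [key (M * t - 1) (by omega) ?_ hu1.2]
    · have h1 : ((M * t - 1 : ℕ) : ZMod m) = -1 := by
        rw [Nat.cast_sub (by omega)]
        push_cast
        rw [hMm, zero_mul, zero_sub]
      rw [h1, hneg]
    · intro q hq hqW hqt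
      have h1 : q ∣ (M * t - 1) + 1 := by
        rw [Nat.sub_add_cancel (by omega)]
        exact hWM q hqW
      exact hq.one_lt.ne' (Nat.dvd_one.1 ((Nat.dvd_add_right hqt).1 h1))
  have hnat : ∀ F : ℕ, χ (F : ZMod p) = 1 → ∃ y : ℕ, y ^ k ≡ F [MOD p] := by
    intro F hF
    obtain ⟨y, hy⟩ := pow_of_char χ hχ hF
    refine ⟨y.val, ?_⟩
    rw [← ZMod.natCast_eq_natCast_iff]
    push_cast
    rw [ZMod.natCast_zmod_val]
    exact hy
  refine ⟨M * t - 1, by omega, by omega, fun j hj => ?_⟩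
  have hj3 : j = 0 ∨ j = 1 ∨ j = 2 := by omega
  rcases hj3 with rfl | rfl | rfl
  · rw [Nat.add_zero]
    exact hnat _ k1
  · rw [Nat.sub_add_cancel (by omega)]
    obtain ⟨y, hy⟩ := hnat _ k0
    refine ⟨W * y, ?_⟩
    rw [mul_pow]
    exact hy.mul_left _
  · have h1 : M * t - 1 + 2 = M * t + 1 := by omega
    rw [h1]
    exact hnat _ k2

end Pool.Agent.Lib.MP55191a
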