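import Pool.Agent.Lib.MP_55191a_nt.Core

/-!
# Three linear forms free of a thin set of primes: the counting argument
-/

set_option autoImplicit false

namespace Pool.Agent.Lib.MP55191a

open Finset
open scoped Classical
open Pool.Agent.Lib.MP391708.QPA (PB)

theorem forms : ∃ A : ℕ, 2 ≤ A ∧ ∀ a b : Fin 3 → ℕ, (∀ i, 0 < a i) → (∀ i, 0 < b i) →
    ∃ x0 : ℕ, ∀ x : ℕ, x0 ≤ x → ∀ Bad : ℕ → Prop,
      (∀ q, Bad q → q.Prime ∧ 7 ≤ q ∧ ∀ i, ¬ q ∣ a i) →
      (∑ q ∈ (range (x ^ A)).filter (fun q => Bad q ∧ x ≤ q), 1 / (q : ℝ)) ≤ 1 / 100 →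
      ∃ u : ℕ, ∀ i, a i * u + b i < x ^ A ∧ ∀ q, Bad q → ¬ q ∣ a i * u + b i := by
  obtain ⟨s, q0, hs, hq0, hsv⟩ := sieve 3
  obtain ⟨B, x1, hB, hrho⟩ := rho_small s
  set E := B * s + s with hE
  have hBs : B ≤ B * s := Nat.le_mul_of_pos_right B (by omega)
  refine ⟨E + 1, by omega, fun a b ha hb => ?_⟩
  refine ⟨q0 + x1 + 3 + ∑ i, (a i + b i), fun x hx Bad hBad hsum => ?_⟩
  have hxq0 : q0 ≤ x := by omega
  have hxx1 : x1 ≤ x := by omega
  have hx3 : 3 ≤ x := by omega
  have hxab : ∀ i, a i + b i ≤ x := fun i => by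
    have h1 : a i + b i ≤ ∑ i, (a i + b i) :=
      single_le_sum (f := fun i => a i + b i) (fun _ _ => Nat.zero_le _) (mem_univ i)
    omega
  have hx1 : 1 ≤ x := by omega
  set U := x ^ E with hU
  -- the classes
  set Om : ℕ → Finset ℕ := fun p =>
    if Bad p then (univ : Finset (Fin 3)).biUnion (fun i => Rt (a i) (b i) p) else ∅ with hOmd
  have hOm : OK Om := by
    intro p hp
    by_cases h : Bad p
    · have e : Om p = (univ : Finset (Fin 3)).biUnion (fun i => Rt (a i) (b i) p) := by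
        rw [hOmd]
        simp only
        rw [if_pos h]
      obtain ⟨-, h7, hna⟩ := hBad p h
      have hc : (Om p).card ≤ 3 := by
        rw [e]
        refine card_biUnion_le.trans ?_
        rw [sum_congr rfl fun i _ => card_Rt hp (hna i)]
        simp
      refine ⟨?_, hc, by omega⟩
      rw [e, biUnion_subset]
      exact fun i _ => filter_subset _ _
    · have e : Om p = ∅ := by
        rw [hOmd]
        simp only
        rw [if_neg h]
      rw [e]
      simp
  have hsv' : ∀ q, q0 ≤ q → ∀ Om : ℕ → Finset ℕ, OK Om → ∀ N, q ^ s ≤ N →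
      ((N * Vp q Om) ≤ 4 * ((Z N q Om).card : ℝ)) ∧ ((Z N q Om).card : ℝ) ≤ 2 * (N * Vp q Om) :=
    fun q hq Om hOm N hN => hsv q hq Om hOm N hN
  have hsE : s ≤ E := by omega
  have hlow := (hsv' x hxq0 Om hOm U (Nat.pow_le_pow_right hx1 hsE)).1
  by_contra hcon
  push Not at hcon
  -- the failing form
  set D : Fin 3 → ℕ → Finset ℕ := fun i l => (Z U x Om).filter (fun u => l ∣ a i * u + b i) with hD
  set q := x ^ B with hq
  set y := x ^ (s + 1) with hy
  set G : Fin 3 → Finset ℕ := fun i => (Z U x Om).filter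
    (fun u => ∀ p : ℕ, p.Prime → y ≤ p → p < q → ¬ p ∣ a i * u + b i) with hG
  set Q := (range (x ^ (E + 1))).filter (fun q => Bad q ∧ x ≤ q) with hQ
  set Q' := Q.filter (fun l => l < x ^ (E - s)) with hQ'
  have hcov : Z U x Om ⊆ (univ : Finset (Fin 3)).biUnion (fun i => Q'.biUnion (D i) ∪ G i) := by
    intro u hu
    obtain ⟨i, hi⟩ := hcon u
    have huU : u < U := by
      have h1 := hu
      unfold Z at h1
      exact mem_range.1 (mem_filter.1 h1).1
    have hFlt : a i * u + b i < x ^ (E + 1) := by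
      have h1 : a i * u < a i * U := (Nat.mul_lt_mul_left (ha i)).2 huU
      have h2 : b i * 1 ≤ b i * U := Nat.mul_le_mul_left _ (by omega)
      have h3 : (a i + b i) * U ≤ x * U := Nat.mul_le_mul_right _ (hxab i)
      have h4 : x ^ (E + 1) = x * U := by rw [hU, pow_succ, mul_comm]
      rw [h4]
      nlinarith
    obtain ⟨l, hl, hld⟩ := hi hFlt
    obtain ⟨hlp, hl7, hlna⟩ := hBad l hl
    have hFpos : 0 < a i * u + b i := by
      have := hb i
      omega
    have hlx : x ≤ l := by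
      by_contra hlt
      push Not at hlt
      have h1 := hu
      unfold Z at h1
      apply (mem_filter.1 h1).2 l (mem_PB.2 ⟨hlt, hlp⟩)
      rw [hOmd]
      simp only
      rw [if_pos hl, mem_biUnion]
      exact ⟨i, mem_univ _, (mem_Rt hlp.pos).2 hld⟩
    rw [mem_biUnion]
    refine ⟨i, mem_univ _, ?_⟩
    rw [mem_union]
    by_cases hlE : l < x ^ (E - s)
    · left
      rw [mem_biUnion]
      refine ⟨l, ?_, mem_filter.2 ⟨hu, hld⟩⟩
      rw [hQ', mem_filter, hQ, mem_filter, mem_range]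
      exact ⟨⟨(Nat.le_of_dvd hFpos hld).trans_lt hFlt, hl, hlx⟩, hlE⟩
    · right
      push Not at hlE
      rw [hG]
      simp only
      rw [mem_filter]
      refine ⟨hu, fun p hp hyp hpq hpd => ?_⟩
      obtain ⟨c, hc⟩ := hld
      rw [hc] at hpd hFlt hFpos
      have hcpos : 0 < c := Nat.pos_of_mul_pos_left hFpos
      have hqE : q ≤ x ^ (E - s) := Nat.pow_le_pow_right hx1 (by omega)
      rcases (Nat.Prime.dvd_mul hp).1 hpd with h1 | h1
      · have := (Nat.prime_dvd_prime_iff_eq hp hlp).1 h1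
        omega
      · have h2 : p ≤ c := Nat.le_of_dvd hcpos h1
        have h3 : x ^ (E - s) * y ≤ l * c := Nat.mul_le_mul hlE (hyp.trans h2)
        have h4 : x ^ (E - s) * y = x ^ (E + 1) := by
          rw [hy, ← pow_add]
          congr 1
          omega
        omega
  -- counting
  set V := Vp x Om with hV
  have hVpos : 0 < V := Vp_pos hOm x
  have hUpos : (0 : ℝ) < U := by
    have : 0 < U := by positivity
    exact_mod_cast this
  have hDb : ∀ i, ∀ l ∈ Q', ((D i l).card : ℝ) ≤ 4 * (U * V) * (1 / (l : ℝ)) := by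
    intro i l hl
    rw [hQ', mem_filter, hQ, mem_filter] at hl
    obtain ⟨⟨-, hlB, hlx⟩, hlE⟩ := hl
    obtain ⟨hlp, hl7, hlna⟩ := hBad l hlB
    refine D_bound hx1 (fun Om hOm N hN => (hsv' x hxq0 Om hOm N hN).2) hOm hlp hlx (hlna i) ?_
    rw [Nat.le_div_iff_mul_le hlp.pos]
    calc x ^ s * l ≤ x ^ s * x ^ (E - s) := Nat.mul_le_mul_left _ hlE.le
      _ = U := by
        rw [← pow_add, hU]
        congr 1
        omega
  have hxq : x ≤ q := by
    calc x = x ^ 1 := (pow_one x).symm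
      _ ≤ x ^ B := Nat.pow_le_pow_right hx1 (by omega)
  have hxy : x ≤ y := by
    calc x = x ^ 1 := (pow_one x).symm
      _ ≤ x ^ (s + 1) := Nat.pow_le_pow_right hx1 (by omega)
  have hGb : ∀ i, ((G i).card : ℝ) ≤ 2 * (U * V) * rho y q := by
    intro i
    refine G_bound hxq hxy
      (fun Om hOm N hN => (hsv' q (hxq0.trans hxq) Om hOm N hN).2) hOm ?_ ?_
    · intro p hp hyp hpd
      have h1 := Nat.le_of_dvd (ha i) hpd
      have h2 := hxab i
      have h3 := hb i
      omega
    · rw [hq, ← pow_mul, hU]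
      exact Nat.pow_le_pow_right hx1 (by omega)
  have hrho' : rho y q ≤ 1 / 48 := hrho x hxx1
  have hUV : 0 < (U : ℝ) * V := by positivity
  have hsum' : ∑ l ∈ Q', 1 / (l : ℝ) ≤ 1 / 100 := by
    refine le_trans (sum_le_sum_of_subset_of_nonneg (filter_subset _ _) fun l _ _ => ?_) hsum
    positivity
  have hcard : ((Z U x Om).card : ℝ) ≤ ∑ i : Fin 3, (∑ l ∈ Q', ((D i l).card : ℝ) + (G i).card) := by
    have h1 : (Z U x Om).card ≤ ∑ i : Fin 3, (∑ l ∈ Q', (D i l).card + (G i).card) := by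
      refine (card_le_card hcov).trans (card_biUnion_le.trans (sum_le_sum fun i _ => ?_))
      refine (card_union_le _ _).trans (Nat.add_le_add_right card_biUnion_le _)
    exact_mod_cast h1
  have hterm : ∀ i : Fin 3, (∑ l ∈ Q', ((D i l).card : ℝ) + (G i).card) ≤
      4 * (U * V) * (1 / 100) + 2 * (U * V) * (1 / 48) := by
    intro i
    refine add_le_add ?_ ((hGb i).trans (mul_le_mul_of_nonneg_left hrho' (by positivity)))
    refine (sum_le_sum (hDb i)).trans ?_
    rw [← mul_sum]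
    exact mul_le_mul_of_nonneg_left hsum' (by positivity)
  have hfin := hcard.trans (sum_le_sum fun i _ => hterm i)
  rw [sum_const, card_univ, Fintype.card_fin, nsmul_eq_mul] at hfin
  push_cast at hfin
  linarith

end Pool.Agent.Lib.MP55191a
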