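import Pool.Agent.Lib.MP_3efbeb_nt.Odd.FLK
import Pool.Agent.Lib.MP_3efbeb_nt.Odd.VLB

/-!
# A sieve with at most `κ` forbidden classes for every prime
-/

set_option autoImplicit false

namespace Pool.Agent.Lib.MP55191a

open Finset
open scoped Classical
open Pool.Agent.Lib.MP391708.QPA (PB rInd Rough)
open Pool.Agent.Lib.MP3efbeb.Odd (SpecFLK SpecVLB)

/-- the number of classes modulo `d` with residue in `Om p` for all `p ∣ d` -/
noncomputable def nuO (Om : ℕ → Finset ℕ) (d : ℕ) : ℕ :=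
  ((range d).filter (fun t => ∀ p ∈ d.primeFactors, t % p ∈ Om p)).card

theorem cond_mod (Om : ℕ → Finset ℕ) {d n t : ℕ} (h : d ∣ n) :
    (∀ p ∈ d.primeFactors, (t % n) % p ∈ Om p) ↔ ∀ p ∈ d.primeFactors, t % p ∈ Om p := by
  have h1 : ∀ p ∈ d.primeFactors, (t % n) % p = t % p := fun p hp =>
    Nat.mod_mod_of_dvd t ((Nat.dvd_of_mem_primeFactors hp).trans h)
  constructor
  · intro h2 p hp
    rw [← h1 p hp]
    exact h2 p hp
  · intro h2 p hp
    rw [h1 p hp]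
    exact h2 p hp

theorem nuO_mul (Om : ℕ → Finset ℕ) {m n : ℕ} (h : Nat.Coprime m n) (hm : 0 < m) (hn : 0 < n) :
    nuO Om (m * n) = nuO Om m * nuO Om n := by
  unfold nuO
  rw [← card_product]
  have hpf : ∀ t : ℕ, (∀ p ∈ (m * n).primeFactors, t % p ∈ Om p) ↔
      (∀ p ∈ m.primeFactors, t % p ∈ Om p) ∧ ∀ p ∈ n.primeFactors, t % p ∈ Om p := by
    intro t
    rw [Nat.primeFactors_mul hm.ne' hn.ne']
    constructor
    · exact fun h => ⟨fun p hp => h p (mem_union_left _ hp), fun p hp => h p (mem_union_right _ hp)⟩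
    · rintro ⟨h1, h2⟩ p hp
      rcases mem_union.1 hp with h3 | h3
      · exact h1 p h3
      · exact h2 p h3
  refine card_nbij' (fun t => (t % m, t % n)) (fun p => (Nat.chineseRemainder h p.1 p.2 : ℕ))
    ?_ ?_ ?_ ?_
  · intro t ht
    simp only [coe_filter, mem_range, Set.mem_ofPred_eq, coe_product, Set.mem_prod] at ht ⊢
    obtain ⟨h1, h2⟩ := ht
    rw [hpf] at h2
    exact ⟨⟨Nat.mod_lt _ hm, (cond_mod Om dvd_rfl).2 h2.1⟩, Nat.mod_lt _ hn,
      (cond_mod Om dvd_rfl).2 h2.2⟩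
  · intro p hp
    simp only [coe_filter, mem_range, Set.mem_ofPred_eq, coe_product, Set.mem_prod] at hp ⊢
    obtain ⟨⟨h1, h2⟩, h3, h4⟩ := hp
    refine ⟨Nat.chineseRemainder_lt_mul h _ _ hm.ne' hn.ne', ?_⟩
    have h5 := (Nat.chineseRemainder h p.1 p.2).2
    rw [hpf]
    refine ⟨(cond_mod Om (dvd_refl m)).1 ?_, (cond_mod Om (dvd_refl n)).1 ?_⟩
    · rw [show (Nat.chineseRemainder h p.1 p.2 : ℕ) % m = p.1 % m from h5.1, Nat.mod_eq_of_lt h1]
      exact h2
    · rw [show (Nat.chineseRemainder h p.1 p.2 : ℕ) % n = p.2 % n from h5.2, Nat.mod_eq_of_lt h3]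
      exact h4
  · intro t ht
    simp only [coe_filter, mem_range, Set.mem_ofPred_eq] at ht
    have h1 := (Nat.chineseRemainder h (t % m) (t % n)).2
    have h2 : (Nat.chineseRemainder h (t % m) (t % n) : ℕ) ≡ t [MOD m * n] :=
      (Nat.modEq_and_modEq_iff_modEq_mul h).1
        ⟨h1.1.trans (Nat.mod_modEq t m), h1.2.trans (Nat.mod_modEq t n)⟩
    exact Nat.ModEq.eq_of_lt_of_lt h2 (Nat.chineseRemainder_lt_mul h _ _ hm.ne' hn.ne') ht.1
  · intro p hp
    simp only [coe_filter, mem_range, Set.mem_ofPred_eq, coe_product, Set.mem_prod] at hp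
    obtain ⟨⟨h1, h2⟩, h3, h4⟩ := hp
    have h5 := (Nat.chineseRemainder h p.1 p.2).2
    refine Prod.ext ?_ ?_
    · change (Nat.chineseRemainder h p.1 p.2 : ℕ) % m = p.1
      rw [show (Nat.chineseRemainder h p.1 p.2 : ℕ) % m = p.1 % m from h5.1, Nat.mod_eq_of_lt h1]
    · change (Nat.chineseRemainder h p.1 p.2 : ℕ) % n = p.2
      rw [show (Nat.chineseRemainder h p.1 p.2 : ℕ) % n = p.2 % n from h5.2, Nat.mod_eq_of_lt h3]

theorem nuO_prime (Om : ℕ → Finset ℕ) {p : ℕ} (hp : p.Prime) (h : Om p ⊆ range p) :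
    nuO Om p = (Om p).card := by
  unfold nuO
  congr 1
  rw [hp.primeFactors]
  ext t
  simp only [mem_filter, mem_range, mem_singleton, forall_eq]
  constructor
  · rintro ⟨h1, h2⟩
    rwa [Nat.mod_eq_of_lt h1] at h2
  · intro h1
    have h2 := mem_range.1 (h h1)
    exact ⟨h2, by rwa [Nat.mod_eq_of_lt h2]⟩

theorem nuO_prod (Om : ℕ → Finset ℕ) (hOm : ∀ p : ℕ, p.Prime → Om p ⊆ range p) (s : Finset ℕ)
    (hs : ∀ p ∈ s, p.Prime) : nuO Om (∏ p ∈ s, p) = ∏ p ∈ s, (Om p).card := by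
  induction s using Finset.induction_on with
  | empty =>
    rw [prod_empty, prod_empty]
    unfold nuO
    simp
  | insert a s ha ih =>
    have hs' : ∀ p ∈ s, p.Prime := fun p hp => hs p (mem_insert_of_mem hp)
    have hap : a.Prime := hs a (mem_insert_self _ _)
    rw [prod_insert ha, prod_insert ha, nuO_mul, ih hs', nuO_prime Om hap (hOm a hap)]
    · refine Nat.Coprime.prod_right fun p hp => ?_
      rw [Nat.coprime_primes hap (hs' p hp)]
      rintro rfl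
      exact ha hp
    · exact hap.pos
    · exact prod_pos fun p hp => (hs' p hp).pos

/-- a residue class in an initial segment -/
theorem class_card (δ N r : ℕ) (hδ : 0 < δ) (hr : r < δ) :
    |(((range N).filter (fun t => t % δ = r)).card : ℝ) - N / δ| ≤ 1 := by
  have h0 : ((range N).filter (fun t => t % δ = r)).card = Nat.count (fun t => t ≡ r [MOD δ]) N := by
    rw [Nat.count_eq_card_filter_range]
    congr 1
    ext t
    simp only [mem_filter, Nat.ModEq, Nat.mod_eq_of_lt hr]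
  rw [h0, Nat.count_modEq_card _ hδ, Nat.mod_eq_of_lt hr]
  have h1 := Nat.div_add_mod N δ
  have h2 := Nat.mod_lt N hδ
  have hδR : (0 : ℝ) < δ := by exact_mod_cast hδ
  have h3 : (N : ℝ) / δ = ((N / δ : ℕ) : ℝ) + ((N % δ : ℕ) : ℝ) / δ := by
    have h7 : (N : ℝ) = δ * ((N / δ : ℕ) : ℝ) + ((N % δ : ℕ) : ℝ) := by exact_mod_cast h1.symm
    rw [div_eq_iff hδR.ne', add_mul, div_mul_cancel₀ _ hδR.ne']
    linarith
  have h4 : ((N % δ : ℕ) : ℝ) / δ ≤ 1 := by
    rw [div_le_one hδR]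
    exact_mod_cast h2.le
  have h5 : (0 : ℝ) ≤ ((N % δ : ℕ) : ℝ) / δ := by positivity
  rw [h3]
  push_cast
  split_ifs with h6
  · rw [abs_le]
    constructor <;> linarith
  · rw [abs_le]
    constructor <;> linarith

theorem rem_le (Om : ℕ → Finset ℕ) (hOm : ∀ p : ℕ, p.Prime → Om p ⊆ range p) (δ N : ℕ)
    (hδ : Squarefree δ) :
    |(((range N).filter (fun u => ∀ p ∈ δ.primeFactors, u % p ∈ Om p)).card : ℝ) -
      N * ∏ p ∈ δ.primeFactors, (((Om p).card : ℝ) / p)| ≤ δ := by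
  have hδ0 : 0 < δ := Nat.pos_of_ne_zero hδ.ne_zero
  have hprod : ∏ p ∈ δ.primeFactors, p = δ := Nat.prod_primeFactors_of_squarefree hδ
  have hnu : nuO Om δ = ∏ p ∈ δ.primeFactors, (Om p).card := by
    conv_lhs => rw [← hprod]
    exact nuO_prod Om hOm _ fun p hp => Nat.prime_of_mem_primeFactors hp
  set R := (range δ).filter (fun t => ∀ p ∈ δ.primeFactors, t % p ∈ Om p) with hR
  have h1 : (N : ℝ) * ∏ p ∈ δ.primeFactors, (((Om p).card : ℝ) / p) =
      ∑ r ∈ R, (N : ℝ) / δ := by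
    rw [sum_const, nsmul_eq_mul, prod_div_distrib, ← Nat.cast_prod, ← Nat.cast_prod, hprod, ← hnu]
    change (N : ℝ) * ((nuO Om δ : ℝ) / δ) = (nuO Om δ : ℝ) * (N / δ)
    ring
  have h2 : (((range N).filter (fun u => ∀ p ∈ δ.primeFactors, u % p ∈ Om p)).card : ℝ) =
      ∑ r ∈ R, (((range N).filter (fun t => t % δ = r)).card : ℝ) := by
    rw [← Nat.cast_sum]
    congr 1
    rw [card_eq_sum_card_fiberwise (f := fun t => t % δ) (t := R)]
    · refine sum_congr rfl fun r hr => ?_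
      rw [hR, mem_filter, mem_range] at hr
      congr 1
      ext t
      simp only [mem_filter]
      constructor
      · rintro ⟨⟨h3, h4⟩, h5⟩
        exact ⟨h3, h5⟩
      · rintro ⟨h3, h4⟩
        refine ⟨⟨h3, ?_⟩, h4⟩
        rw [← cond_mod Om (dvd_refl δ), h4]
        exact hr.2
    · intro t ht
      simp only [coe_filter, mem_range, Set.mem_ofPred_eq] at ht
      simp only [hR, coe_filter, mem_range, Set.mem_ofPred_eq]
      exact ⟨Nat.mod_lt _ hδ0, (cond_mod Om (dvd_refl δ)).2 ht.2⟩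
  rw [h1, h2, ← sum_sub_distrib]
  refine (abs_sum_le_sum_abs _ _).trans ?_
  refine (sum_le_sum (g := fun _ => (1 : ℝ)) fun r hr => ?_).trans ?_
  · rw [hR, mem_filter, mem_range] at hr
    exact class_card δ N r hδ0 hr.1
  · rw [sum_const, nsmul_eq_mul, mul_one]
    have h3 : R.card ≤ δ := by
      rw [hR]
      exact (card_filter_le _ _).trans (by simp)
    exact_mod_cast h3

theorem g_bound {κ : ℕ} {Om : ℕ → Finset ℕ}
    (hOm : ∀ p : ℕ, p.Prime → Om p ⊆ range p ∧ (Om p).card ≤ κ ∧ 2 * (Om p).card ≤ p) :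
    ∀ p : ℕ, p.Prime → 0 ≤ ((Om p).card : ℝ) / p ∧ ((Om p).card : ℝ) / p ≤ κ / (p : ℝ) ∧
      ((Om p).card : ℝ) / p ≤ 1 / 2 := by
  intro p hp
  have hp0 : (0 : ℝ) < p := by exact_mod_cast hp.pos
  obtain ⟨-, h2, h3⟩ := hOm p hp
  refine ⟨by positivity, ?_, ?_⟩
  · have : ((Om p).card : ℝ) ≤ κ := by exact_mod_cast h2
    gcongr
  · rw [div_le_iff₀ hp0]
    have : (2 : ℝ) * (Om p).card ≤ p := by exact_mod_cast h3
    linarith

/-- **The sieve.** -/
theorem sieve (κ : ℕ) : ∃ s q0 : ℕ, 1 ≤ s ∧ 2 ≤ q0 ∧ ∀ q : ℕ, q0 ≤ q → ∀ Om : ℕ → Finset ℕ,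
    (∀ p : ℕ, p.Prime → Om p ⊆ range p ∧ (Om p).card ≤ κ ∧ 2 * (Om p).card ≤ p) →
    ∀ N : ℕ, q ^ s ≤ N →
    (N * ∏ p ∈ PB (q : ℝ), (1 - ((Om p).card : ℝ) / p)) ≤
      4 * (((range N).filter (fun u => ∀ p ∈ PB (q : ℝ), u % p ∉ Om p)).card : ℝ) ∧
    (((range N).filter (fun u => ∀ p ∈ PB (q : ℝ), u % p ∉ Om p)).card : ℝ) ≤
      2 * (N * ∏ p ∈ PB (q : ℝ), (1 - ((Om p).card : ℝ) / p)) := by
  obtain ⟨C, hC, hF⟩ := Pool.Agent.Lib.MP3efbeb.Odd.specFLK κ
  obtain ⟨q1, hq1, hV⟩ := Pool.Agent.Lib.MP3efbeb.Odd.specVLB κ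
  -- `C e^{-b} ≤ 1/4`
  obtain ⟨b, hb⟩ : ∃ b : ℕ, C * Real.exp (-(b : ℝ)) ≤ 1 / 4 := by
    obtain ⟨b, hb⟩ := exists_nat_ge (4 * C)
    refine ⟨b, ?_⟩
    have h1 : (b : ℝ) + 1 ≤ Real.exp b := Real.add_one_le_exp _
    rw [Real.exp_neg, ← div_eq_mul_inv, div_le_iff₀ (Real.exp_pos _)]
    linarith
  set E := 8 * b + 16 with hE
  obtain ⟨q2, hq2⟩ := exists_nat_ge C
  refine ⟨2 * E + 3, max (max q1 q2) 2, by omega, le_max_right _ _, fun q hq Om hOm N hN => ?_⟩
  have hqq1 : q1 ≤ q := (le_max_left q1 q2).trans ((le_max_left _ _).trans hq)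
  have hqq2 : q2 ≤ q := (le_max_right q1 q2).trans ((le_max_left _ _).trans hq)
  have hq2' : 2 ≤ q := (le_max_right _ _).trans hq
  have hqR : (2 : ℝ) ≤ q := by exact_mod_cast hq2'
  have hq0 : (0 : ℝ) < q := by linarith
  have hCq : C ≤ q := hq2.trans (by exact_mod_cast hqq2)
  set g : ℕ → ℝ := fun p => ((Om p).card : ℝ) / p with hg
  have hgb := g_bound hOm
  have hP4 := hV q hqq1 g hgb
  set v : ℕ → ℕ := fun u => ∏ p ∈ (PB (q : ℝ)).filter (fun p => u % p ∈ Om p), p with hv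
  have hPBp : ∀ p ∈ PB (q : ℝ), p.Prime ∧ p < q := by
    intro p hp
    unfold PB at hp
    rw [mem_filter, mem_range, Nat.ceil_natCast] at hp
    exact ⟨hp.2, hp.1⟩
  have hPBm : ∀ p : ℕ, p.Prime → p < q → p ∈ PB (q : ℝ) := by
    intro p hp hpq
    unfold PB
    rw [mem_filter, mem_range, Nat.ceil_natCast]
    exact ⟨hpq, hp⟩
  have hdv : ∀ (u p : ℕ), p.Prime → p < q → (p ∣ v u ↔ u % p ∈ Om p) := by
    intro u p hp hpq
    constructor
    · intro h
      rw [hv] at h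
      obtain ⟨p', hp', hpp'⟩ := (Prime.dvd_finsetProd_iff hp.prime _).1 h
      rw [mem_filter] at hp'
      have h1 := (Nat.prime_dvd_prime_iff_eq hp (hPBp p' hp'.1).1).1 hpp'
      rw [h1]
      exact hp'.2
    · intro h
      exact dvd_prod_of_mem (fun p => p) (mem_filter.2 ⟨hPBm p hp hpq, h⟩)
  have hmain := hF b (q : ℝ) hqR (range N) v (fun _ => 1) N g (by positivity)
    (fun _ _ => zero_le_one) hgb
  set P : ℝ := ∏ p ∈ PB (q : ℝ), (1 - g p) with hP
  set cnt : ℝ := (((range N).filter (fun u => ∀ p ∈ PB (q : ℝ), u % p ∉ Om p)).card : ℝ) with hcnt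
  have hcount : (∑ i ∈ range N, (1 : ℝ) * rInd (q : ℝ) (v i)) = cnt := by
    rw [hcnt, card_filter, Nat.cast_sum]
    refine sum_congr rfl fun u _ => ?_
    rw [one_mul]
    unfold rInd
    by_cases h : ∀ p ∈ PB (q : ℝ), u % p ∉ Om p
    · rw [if_pos h, if_pos, Nat.cast_one]
      intro p hp hpv
      by_contra hlt
      push Not at hlt
      have hlt' : p < q := by exact_mod_cast hlt
      exact h p (hPBm p hp hlt') ((hdv u p hp hlt').1 hpv)
    · rw [if_neg h, if_neg, Nat.cast_zero]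
      intro hr
      apply h
      intro p hp hmem
      obtain ⟨h1, h2⟩ := hPBp p hp
      have h3 := hr p h1 ((hdv u p h1 h2).2 hmem)
      have h4 : (p : ℝ) < q := by exact_mod_cast h2
      linarith
  rw [hcount] at hmain
  -- the remainders
  have hrem : ∑ δ ∈ (Icc 1 ⌊(q : ℝ) ^ (8 * b + 16)⌋₊).filter
      (fun δ => Squarefree δ ∧ ∀ p : ℕ, p.Prime → p ∣ δ → (p : ℝ) < q),
      |(∑ i ∈ (range N).filter (fun i => δ ∣ v i), (1 : ℝ)) -
        (N : ℝ) * ∏ p ∈ δ.primeFactors, g p| ≤ (q : ℝ) ^ (2 * E) := by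
    have hfl : ⌊(q : ℝ) ^ (8 * b + 16)⌋₊ = q ^ E := by
      rw [← Nat.cast_pow, Nat.floor_natCast]
    have hterm : ∀ δ ∈ (Icc 1 ⌊(q : ℝ) ^ (8 * b + 16)⌋₊).filter
        (fun δ => Squarefree δ ∧ ∀ p : ℕ, p.Prime → p ∣ δ → (p : ℝ) < q),
        |(∑ i ∈ (range N).filter (fun i => δ ∣ v i), (1 : ℝ)) -
          (N : ℝ) * ∏ p ∈ δ.primeFactors, g p| ≤ (q : ℝ) ^ E := by
      intro δ hδ
      rw [mem_filter, mem_Icc, hfl] at hδ
      obtain ⟨⟨hδ1, hδ2⟩, hδs, hδq⟩ := hδ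
      have hδE : (δ : ℝ) ≤ (q : ℝ) ^ E := by exact_mod_cast hδ2
      have h1 : (range N).filter (fun i => δ ∣ v i) =
          (range N).filter (fun u => ∀ p ∈ δ.primeFactors, u % p ∈ Om p) := by
        ext u
        simp only [mem_filter, and_congr_right_iff]
        intro _
        constructor
        · intro h p hp
          have hpp := Nat.prime_of_mem_primeFactors hp
          have hpd := Nat.dvd_of_mem_primeFactors hp
          exact (hdv u p hpp (by exact_mod_cast hδq p hpp hpd)).1 (hpd.trans h)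
        · intro h
          rw [← Nat.prod_primeFactors_of_squarefree hδs]
          refine Finset.prod_primes_dvd _ (fun p hp => (Nat.prime_of_mem_primeFactors hp).prime)
            fun p hp => ?_
          have hpp := Nat.prime_of_mem_primeFactors hp
          have hpd := Nat.dvd_of_mem_primeFactors hp
          exact (hdv u p hpp (by exact_mod_cast hδq p hpp hpd)).2 (h p hp)
      rw [h1, sum_const, nsmul_eq_mul, mul_one]
      exact (rem_le Om (fun p hp => (hOm p hp).1) δ N hδs).trans hδE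
    refine (sum_le_sum hterm).trans ?_
    have hsplit : (q : ℝ) ^ (2 * E) = (q : ℝ) ^ E * (q : ℝ) ^ E := by ring
    rw [sum_const, nsmul_eq_mul, hsplit]
    refine mul_le_mul_of_nonneg_right ?_ (by positivity)
    have h1 := card_filter_le (Icc 1 ⌊(q : ℝ) ^ (8 * b + 16)⌋₊)
      (fun δ => Squarefree δ ∧ ∀ p : ℕ, p.Prime → p ∣ δ → (p : ℝ) < q)
    rw [hfl, Nat.card_Icc, Nat.add_sub_cancel] at h1
    rw [hfl]
    exact_mod_cast h1
  have hNR : (q : ℝ) ^ (2 * E + 3) ≤ N := by exact_mod_cast hN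
  have hP0 : 0 < P := lt_of_lt_of_le (by positivity) hP4
  have hlog : 1 + Real.log q ≤ q := by
    have := Real.log_le_sub_one_of_pos hq0
    linarith
  have hlog0 : 0 ≤ 1 + Real.log q := by
    have := Real.log_nonneg (show (1 : ℝ) ≤ q by linarith)
    linarith
  have herr : C * (1 + Real.log q) * (q : ℝ) ^ (2 * E) ≤ (1 / 2) * (N * P) := by
    have h1 : C * (1 + Real.log q) ≤ q * q := mul_le_mul hCq hlog hlog0 hq0.le
    have h2 : C * (1 + Real.log q) * (q : ℝ) ^ (2 * E) ≤ q * q * (q : ℝ) ^ (2 * E) :=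
      mul_le_mul_of_nonneg_right h1 (by positivity)
    have h3 : (q : ℝ) ^ (2 * E + 3) * (4 / q) ≤ N * P :=
      mul_le_mul hNR hP4 (by positivity) (by positivity)
    have h4 : (q : ℝ) ^ (2 * E + 3) * (4 / q) = 4 * (q * q * (q : ℝ) ^ (2 * E)) := by
      rw [pow_add]
      field_simp
    rw [h4] at h3
    have h5 : 0 ≤ q * q * (q : ℝ) ^ (2 * E) := by positivity
    linarith
  have hmul : C * (1 + Real.log q) * ∑ δ ∈ (Icc 1 ⌊(q : ℝ) ^ (8 * b + 16)⌋₊).filter
      (fun δ => Squarefree δ ∧ ∀ p : ℕ, p.Prime → p ∣ δ → (p : ℝ) < q),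
      |(∑ i ∈ (range N).filter (fun i => δ ∣ v i), (1 : ℝ)) -
        (N : ℝ) * ∏ p ∈ δ.primeFactors, g p| ≤ C * (1 + Real.log q) * (q : ℝ) ^ (2 * E) :=
    mul_le_mul_of_nonneg_left hrem (mul_nonneg hC.le hlog0)
  have hNP : 0 ≤ (N : ℝ) * P := by positivity
  have hexp : C * Real.exp (-(b : ℝ)) * N * P ≤ (1 / 4) * (N * P) := by
    rw [mul_assoc (C * Real.exp (-(b : ℝ)))]
    exact mul_le_mul_of_nonneg_right hb hNP
  have hfin := hmain.trans (add_le_add hexp (hmul.trans herr))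
  obtain ⟨h1, h2⟩ := abs_le.1 hfin
  constructor <;> linarith

end Pool.Agent.Lib.MP55191a
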