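import Pool.Agent.Lib.MP_55191a_nt.Forms

/-!
# Windows in which a set of primes is thin
-/

set_option autoImplicit false

namespace Pool.Agent.Lib.MP55191a

open Finset
open scoped Classical

theorem window (A : ℕ) (hA : 2 ≤ A) (x0 : ℕ) (C : ℝ) : ∃ L₀ : ℕ, ∀ L : ℕ, L₀ ≤ L →
    ∀ Bad : ℕ → Prop,
      (∑ q ∈ (range (L + 1)).filter Bad, 1 / (q : ℝ)) ≤
        1 / (200 * Real.log A) * Real.log (Real.log L) + C →
      ∃ x : ℕ, x0 ≤ x ∧ x ^ A ≤ L ∧
        (∑ q ∈ (range (x ^ A)).filter (fun q => Bad q ∧ x ≤ q), 1 / (q : ℝ)) ≤ 1 / 100 := by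
  obtain ⟨c, hc⟩ := exists_nat_ge C
  set J0 := 2 * x0 + 2 + 200 * c with hJ0
  refine ⟨2 ^ (A ^ J0) + 3, fun L hL Bad hsum => ?_⟩
  set w : ℕ → ℕ := fun i => 2 ^ (A ^ i) with hw
  have hpowpos : 0 < 2 ^ (A ^ J0) := by positivity
  have hL3 : 3 ≤ L := le_trans (Nat.le_add_left 3 _) hL
  have hL4 : 2 ^ (A ^ J0) ≤ L := le_trans (Nat.le_add_right _ 3) hL
  have hw1 : ∀ i, w (i + 1) = w i ^ A := fun i => by
    simp only [hw]
    rw [← pow_mul, ← pow_succ]
  set J := Nat.log A (Nat.log 2 L) with hJ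
  have hlog2 : Nat.log 2 L ≠ 0 := by
    have : 0 < Nat.log 2 L := Nat.log_pos (by norm_num) (by omega)
    omega
  have hJ1 : A ^ J ≤ Nat.log 2 L := Nat.pow_log_le_self A hlog2
  have hJ2 : Nat.log 2 L < A ^ (J + 1) := Nat.lt_pow_succ_log_self (by omega) _
  have hwJ : w J ≤ L := (Nat.pow_le_pow_right (by norm_num) hJ1).trans
    (Nat.pow_log_le_self 2 (by omega))
  have hJJ : J0 ≤ J := by
    rw [hJ]
    refine Nat.le_log_of_pow_le (by omega) ?_
    exact Nat.le_log_of_pow_le (by norm_num) hL4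
  have hwmono : Monotone w := fun i j hij =>
    Nat.pow_le_pow_right (by norm_num) (Nat.pow_le_pow_right (by omega) hij)
  have hwx : x0 ≤ w x0 := by
    have h1 : x0 < A ^ x0 := Nat.lt_pow_self (by omega)
    have h2 : A ^ x0 < 2 ^ (A ^ x0) := Nat.lt_pow_self (by norm_num)
    change x0 ≤ 2 ^ (A ^ x0)
    omega
  by_contra hcon
  push Not at hcon
  have hbig : ∀ i ∈ Ico x0 J, (1 : ℝ) / 100 <
      ∑ q ∈ (range (w (i + 1))).filter (fun q => Bad q ∧ w i ≤ q), 1 / (q : ℝ) := by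
    intro i hi
    rw [mem_Ico] at hi
    rw [hw1]
    refine hcon (w i) (hwx.trans (hwmono hi.1)) ?_
    rw [← hw1]
    exact (hwmono (by omega)).trans hwJ
  have hdisj : ∀ n, ∑ i ∈ Ico x0 (x0 + n), ∑ q ∈ (range (w (i + 1))).filter
      (fun q => Bad q ∧ w i ≤ q), 1 / (q : ℝ) ≤
      ∑ q ∈ (range (w (x0 + n))).filter Bad, 1 / (q : ℝ) := by
    intro n
    induction n with
    | zero =>
      rw [Nat.add_zero, Ico_self, sum_empty]
      exact sum_nonneg fun q _ => by positivity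
    | succ n ih =>
      rw [← Nat.add_assoc, sum_Ico_succ_top (by omega)]
      have h1 : (range (w (x0 + n + 1))).filter Bad =
          (range (w (x0 + n))).filter Bad ∪
            (range (w (x0 + n + 1))).filter (fun q => Bad q ∧ w (x0 + n) ≤ q) := by
        ext q
        have h2 : w (x0 + n) ≤ w (x0 + n + 1) := hwmono (Nat.le_succ (x0 + n))
        simp only [mem_union, mem_filter, mem_range]
        constructor
        · rintro ⟨h3, h4⟩
          by_cases h5 : q < w (x0 + n)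
          · exact Or.inl ⟨h5, h4⟩
          · exact Or.inr ⟨h3, h4, by omega⟩
        · rintro (⟨h3, h4⟩ | ⟨h3, h4, -⟩)
          · exact ⟨by omega, h4⟩
          · exact ⟨h3, h4⟩
      rw [h1, sum_union]
      · exact add_le_add_left ih _
      · rw [disjoint_left]
        intro q h3 h4
        rw [mem_filter, mem_range] at h3 h4
        omega
  obtain ⟨n, hn⟩ : ∃ n, J = x0 + n := ⟨J - x0, by omega⟩
  have h1 : (n : ℝ) * (1 / 100) ≤ ∑ i ∈ Ico x0 (x0 + n), ∑ q ∈ (range (w (i + 1))).filter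
      (fun q => Bad q ∧ w i ≤ q), 1 / (q : ℝ) := by
    rw [← hn]
    refine le_trans (le_of_eq ?_) (sum_le_sum fun i hi => (hbig i hi).le)
    rw [sum_const, Nat.card_Ico, nsmul_eq_mul, hn]
    congr 2
    omega
  have h2 : ∑ q ∈ (range (w (x0 + n))).filter Bad, 1 / (q : ℝ) ≤
      ∑ q ∈ (range (L + 1)).filter Bad, 1 / (q : ℝ) := by
    refine sum_le_sum_of_subset_of_nonneg (fun q hq => ?_) fun q _ _ => by positivity
    rw [mem_filter, mem_range] at hq ⊢
    rw [← hn] at hq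
    exact ⟨by omega, hq.2⟩
  have h3 := (h1.trans (hdisj n)).trans (h2.trans hsum)
  -- `log log L ≤ (J+1) log A`
  have hAR : (2 : ℝ) ≤ A := by exact_mod_cast hA
  have hlA : 0 < Real.log A := Real.log_pos (by linarith)
  have hLR : (3 : ℝ) ≤ L := by exact_mod_cast hL3
  have hlL : 0 < Real.log L := Real.log_pos (by linarith)
  have h4 : (L : ℝ) ≤ 2 ^ (A ^ (J + 1)) := by
    have h5 : L < 2 ^ (Nat.log 2 L + 1) := Nat.lt_pow_succ_log_self (by norm_num) _
    have h6 : 2 ^ (Nat.log 2 L + 1) ≤ 2 ^ (A ^ (J + 1)) := Nat.pow_le_pow_right (by norm_num) hJ2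
    exact_mod_cast (h5.le.trans h6)
  have h5 : Real.log L ≤ (A : ℝ) ^ (J + 1) := by
    have h6 := Real.log_le_log (by linarith) h4
    rw [Real.log_pow] at h6
    push_cast at h6
    refine h6.trans ?_
    have h7 : Real.log 2 ≤ 1 := by
      have := Real.log_two_lt_d9
      linarith
    have h8 : (0 : ℝ) ≤ (A : ℝ) ^ (J + 1) := by positivity
    nlinarith
  have h6 : Real.log (Real.log L) ≤ (J + 1) * Real.log A := by
    have h7 := Real.log_le_log hlL h5
    rw [Real.log_pow] at h7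
    push_cast at h7
    exact h7
  have h7 : 1 / (200 * Real.log A) * Real.log (Real.log L) ≤ (J + 1) / 200 := by
    calc 1 / (200 * Real.log A) * Real.log (Real.log L)
        ≤ 1 / (200 * Real.log A) * ((J + 1) * Real.log A) :=
          mul_le_mul_of_nonneg_left h6 (by positivity)
      _ = (J + 1) / 200 := by
          field_simp
  have h8 : (J : ℝ) = x0 + n := by exact_mod_cast hn
  have h9 : (2 * x0 + 2 + 200 * c : ℝ) ≤ J := by exact_mod_cast hJJ
  linarith

end Pool.Agent.Lib.MP55191a
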